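import Pool.Agent.K1H73.DY.Stm

set_option autoImplicit false

/-!
# Moebius cancellation for the multiplicities (piece DY-B)
-/

namespace Pool.Agent.K1H61.DY

open Polynomial Pool.Agent.K1H73.DY ArithmeticFunction

lemma rootMult_prod {k : Type} [Field k] (y : k) (s : Finset ℕ) (f : ℕ → k[X]) (hf : ∀ d ∈ s, f d ≠ 0) :
    (∏ d ∈ s, f d).rootMultiplicity y = ∑ d ∈ s, (f d).rootMultiplicity y := by
  induction s using Finset.induction_on with
  | empty => simp
  | insert a s ha ih =>
    rw [Finset.prod_insert ha, Finset.sum_insert ha, rootMultiplicity_mul, ih]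
    · exact fun d hd => hf d (Finset.mem_insert_of_mem hd)
    · refine mul_ne_zero (hf a (Finset.mem_insert_self _ _)) ?_
      exact Finset.prod_ne_zero_iff.2 fun d hd => hf d (Finset.mem_insert_of_mem hd)

lemma Pm_ne_zero {k : Type} [Field k] {h : k[X]} (h2 : h.natDegree = 2) (n : ℕ) (e : ℤ) :
    Pm h n e ≠ 0 := by
  unfold Pm
  refine Finset.prod_ne_zero_iff.2 fun d hd => ?_
  split_ifs
  · exact FF_ne_zero h2 (Nat.pos_of_mem_divisors hd)
  · exact one_ne_zero

lemma Pm_mult {k : Type} [Field k] {h : k[X]} (h2 : h.natDegree = 2) (n : ℕ) (e : ℤ) (y : k) :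
    (((Pm h n e).rootMultiplicity y : ℕ) : ℤ)
      = ∑ d ∈ n.divisors, if moebius (n / d) = e then ((FF h d).rootMultiplicity y : ℤ) else 0 := by
  unfold Pm
  rw [rootMult_prod]
  · push_cast
    refine Finset.sum_congr rfl fun d _ => ?_
    split_ifs
    · rfl
    · rw [← C_1, rootMultiplicity_C]; rfl
  · intro d hd
    split_ifs
    · exact FF_ne_zero h2 (Nat.pos_of_mem_divisors hd)
    · exact one_ne_zero

/-- the multiplicity of a root of the dynatomic polynomial -/
lemma mult_sum {k : Type} [Field k] {h : k[X]} (h2 : h.natDegree = 2) {n : ℕ} {Φ : k[X]}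
    (hΦ : Dyn h n Φ) (y : k) : (Φ.rootMultiplicity y : ℤ)
      = ∑ d ∈ n.divisors, moebius (n / d) * ((FF h d).rootMultiplicity y : ℤ) := by
  unfold Dyn at hΦ
  have h0 : Φ * Pm h n (-1) ≠ 0 := by rw [hΦ]; exact Pm_ne_zero h2 n 1
  have h1 := congrArg (fun P => ((P.rootMultiplicity y : ℕ) : ℤ)) hΦ
  rw [rootMultiplicity_mul h0, Nat.cast_add, Pm_mult h2, Pm_mult h2] at h1
  rw [eq_sub_of_add_eq h1, ← Finset.sum_sub_distrib]
  refine Finset.sum_congr rfl fun d _ => ?_
  rcases moebius_eq_or (n / d) with h3 | h3 | h3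
  · rw [h3]; norm_num
  · rw [h3]; norm_num
  · rw [h3]; norm_num

theorem t_PER : S_PER := by
  intro k _ h h2 n hn Φ hΦ y hy
  by_contra hne
  have h0 : Φ ≠ 0 := by
    rintro rfl
    unfold Dyn at hΦ
    rw [zero_mul] at hΦ
    exact Pm_ne_zero h2 n 1 hΦ.symm
  have hm := mult_sum h2 hΦ y
  have hz : ∑ d ∈ n.divisors, moebius (n / d) * ((FF h d).rootMultiplicity y : ℤ) = 0 := by
    refine Finset.sum_eq_zero fun d hd => ?_
    have hd0 := Nat.pos_of_mem_divisors hd
    have : (FF h d).rootMultiplicity y = 0 := by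
      apply rootMultiplicity_eq_zero
      intro hr
      have hr' : (it h d).eval y = y := FF_eval.1 hr
      apply hne
      obtain ⟨m, rfl⟩ := (Nat.mem_divisors.1 hd).1
      rw [it_eval] at hr' ⊢
      rw [Function.iterate_mul]
      exact Function.iterate_fixed hr' m
    rw [this]; simp
  rw [hz] at hm
  have h3 : 0 < Φ.rootMultiplicity y := (rootMultiplicity_pos h0).2 hy
  omega

theorem t_B : S_B := by
  intro k _ h h2 n hn Φ hΦ q hq hqn y H hy
  have h0 : Φ ≠ 0 := by
    rintro rfl
    unfold Dyn at hΦ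
    rw [zero_mul] at hΦ
    exact Pm_ne_zero h2 n 1 hΦ.symm
  have hm := mult_sum h2 hΦ y
  set a : ℕ → ℤ := fun d => ((FF h d).rootMultiplicity y : ℤ) with ha
  have hz : ∑ d ∈ n.divisors, moebius (n / d) * a d = 0 := by
    have e1 : ∑ d ∈ n.divisors, moebius (n / d) * a d = ∑ e ∈ n.divisors, moebius e * a (n / e) := by
      rw [← Nat.sum_div_divisors n fun e => moebius e * a (n / e)]
      refine Finset.sum_congr rfl fun d hd => ?_
      rw [Nat.div_div_self (Nat.mem_divisors.1 hd).1 (by omega)]
    have e2 : ∑ e ∈ n.divisors, moebius e * a (n / e)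
        = ∑ e ∈ n.divisors.filter Squarefree, moebius e * a (n / e) := by
      rw [Finset.sum_filter]
      refine Finset.sum_congr rfl fun e _ => ?_
      split_ifs with h4
      · rfl
      · rw [moebius_eq_zero_of_not_squarefree h4, zero_mul]
    rw [e1, e2]
    have hpair : ∀ e, e ∣ n → ¬ q ∣ e → moebius e * a (n / e) + moebius (q * e) * a (n / (q * e)) = 0 := by
      intro e he hqe
      have hco : Nat.Coprime q e := (Nat.Prime.coprime_iff_not_dvd hq).2 hqe
      have h5 : moebius (q * e) = - moebius e := by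
        rw [isMultiplicative_moebius.map_mul_of_coprime hco, moebius_apply_prime hq]
        ring
      have h6 : a (n / (q * e)) = a (n / e) := by
        have h7 := H (n / e) (Nat.div_dvd_of_dvd he) (by
          rw [Nat.div_div_self he (by omega)]; exact hqe)
        simp only [ha]
        rw [mul_comm q e, ← Nat.div_div_eq_div_mul, ← h7]
      rw [h5, h6]
      ring
    refine Finset.sum_involution (fun e _ => if q ∣ e then e / q else q * e) ?_ ?_ ?_ ?_
    · intro e he
      rw [Finset.mem_filter, Nat.mem_divisors] at he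
      split_ifs with hqe
      · obtain ⟨c, rfl⟩ := hqe
        have hc : ¬ q ∣ c := by
          intro hqc
          have := he.2 q (mul_dvd_mul_left q hqc)
          exact hq.one_lt.ne' (Nat.isUnit_iff.1 this)
        rw [Nat.mul_div_cancel_left _ hq.pos, add_comm]
        exact hpair c ((Dvd.intro_left q rfl).trans he.1.1) hc
      · exact hpair e he.1.1 hqe
    · intro e he _
      rw [Finset.mem_filter, Nat.mem_divisors] at he
      have he0 : 0 < e := Nat.pos_of_dvd_of_pos he.1.1 (by omega)
      split_ifs with hqe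
      · exact (Nat.div_lt_self he0 hq.one_lt).ne
      · intro h5
        nlinarith [hq.one_lt]
    · intro e he
      rw [Finset.mem_filter, Nat.mem_divisors] at he ⊢
      split_ifs with hqe
      · exact ⟨⟨(Nat.div_dvd_of_dvd hqe).trans he.1.1, he.1.2⟩,
          he.2.squarefree_of_dvd (Nat.div_dvd_of_dvd hqe)⟩
      · have hco : Nat.Coprime q e := (Nat.Prime.coprime_iff_not_dvd hq).2 hqe
        exact ⟨⟨hco.mul_dvd_of_dvd_of_dvd hqn he.1.1, he.1.2⟩,
          (Nat.squarefree_mul hco).2 ⟨hq.squarefree, he.2⟩⟩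
    · intro e he
      rw [Finset.mem_filter, Nat.mem_divisors] at he
      by_cases hqe : q ∣ e
      · obtain ⟨c, rfl⟩ := hqe
        have hc : ¬ q ∣ c := by
          intro hqc
          have := he.2 q (mul_dvd_mul_left q hqc)
          exact hq.one_lt.ne' (Nat.isUnit_iff.1 this)
        rw [if_pos (Dvd.intro c rfl), Nat.mul_div_cancel_left _ hq.pos, if_neg hc]
      · rw [if_neg hqe, if_pos (Dvd.intro e rfl), Nat.mul_div_cancel_left _ hq.pos]
  rw [hz] at hm
  have h3 : 0 < Φ.rootMultiplicity y := (rootMultiplicity_pos h0).2 hy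
  omega

end Pool.Agent.K1H61.DY
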