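import Pool.Agent.K1H73.DY.Stm

set_option autoImplicit false

/-!
# Change of variables; the definition with rational functions (piece DY-E)
-/

namespace Pool.Agent.K1H61.DY

open Polynomial Pool.Agent.K1H73.DY ArithmeticFunction

lemma it_conj {K : Type} [Field K] {f h L : K[X]} (hL : L.comp f = h.comp L) (d : ℕ) :
    (it h d).comp L = L.comp (it f d) := by
  induction d with
  | zero => rw [it_zero, it_zero, X_comp, comp_X]
  | succ d ih => rw [it_succ, it_succ, comp_assoc, ih, ← comp_assoc, ← hL, comp_assoc]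

lemma card_moebius {n : ℕ} (hn : 2 ≤ n) :
    (n.divisors.filter (fun d => moebius (n / d) = 1)).card
      = (n.divisors.filter (fun d => moebius (n / d) = -1)).card := by
  have h1 : ∑ d ∈ n.divisors, moebius (n / d) = 0 := by
    rw [Nat.sum_div_divisors n fun e => moebius e]
    have h2 := congrArg (fun f : ArithmeticFunction ℤ => f n) moebius_mul_coe_zeta
    simp only [coe_mul_zeta_apply] at h2
    rw [h2, one_apply_ne (by omega)]
  have h3 : ∀ d ∈ n.divisors, moebius (n / d)
      = (if moebius (n / d) = 1 then (1 : ℤ) else 0) - (if moebius (n / d) = -1 then (1 : ℤ) else 0) := by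
    intro d _
    rcases moebius_eq_or (n / d) with h3 | h3 | h3
    · rw [h3]; norm_num
    · rw [h3]; norm_num
    · rw [h3]; norm_num
  rw [Finset.sum_congr rfl h3, Finset.sum_sub_distrib, Finset.sum_boole, Finset.sum_boole,
    sub_eq_zero] at h1
  exact_mod_cast h1

lemma Pm_conj {K : Type} [Field K] {f h : K[X]} {a t : K} (ha : a ≠ 0)
    (hL : C a * f + C t = h.comp (C a * X + C t)) (n : ℕ) (e : ℤ) :
    Pm h n e = C a ^ (n.divisors.filter (fun d => moebius (n / d) = e)).card *
      (Pm f n e).comp (C a⁻¹ * (X - C t)) := by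
  have hL1 : (C a * X + C t : K[X]).comp f = h.comp (C a * X + C t) := by
    rw [← hL]; simp
  have hinv : (C a * X + C t : K[X]).comp (C a⁻¹ * (X - C t)) = X := by
    simp only [add_comp, mul_comp, C_comp, X_comp]
    rw [← mul_assoc, ← C_mul, mul_inv_cancel₀ ha, C_1, one_mul]
    ring
  have hFF : ∀ d, FF h d = C a * (FF f d).comp (C a⁻¹ * (X - C t)) := by
    intro d
    have h1 : (FF h d).comp (C a * X + C t) = C a * FF f d := by
      unfold FF
      rw [sub_comp, it_conj hL1, X_comp]
      simp only [add_comp, mul_comp, C_comp, X_comp]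
      ring
    have h2 := congrArg (fun P => P.comp (C a⁻¹ * (X - C t))) h1
    rw [comp_assoc, hinv, comp_X, mul_comp, C_comp] at h2
    exact h2
  unfold Pm
  have h4 : ∀ d ∈ n.divisors, (if moebius (n / d) = e then FF h d else 1)
      = (if moebius (n / d) = e then C a else 1) *
        (if moebius (n / d) = e then FF f d else 1).comp (C a⁻¹ * (X - C t)) := by
    intro d _
    split_ifs
    · exact hFF d
    · simp
  rw [Finset.prod_congr rfl h4, Finset.prod_mul_distrib, prod_comp]
  congr 1
  rw [← Finset.prod_filter, Finset.prod_const]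

theorem t_CONJ : S_CONJ := by
  intro K _ f h a t ha hL n hn Φ hΦ
  unfold Dyn at hΦ ⊢
  rw [Pm_conj ha hL, Pm_conj ha hL, card_moebius hn, ← hΦ, mul_comp]
  ring

theorem t_RAT : S_RAT := by
  intro f Φ h2 n hn H
  unfold Dyn
  apply IsFractionRing.injective ℚ[X] (RatFunc ℚ)
  rw [map_mul, H]
  unfold Pm
  rw [map_prod, map_prod, ← Finset.prod_mul_distrib]
  refine Finset.prod_congr rfl fun d hd => ?_
  have h0 : algebraMap ℚ[X] (RatFunc ℚ) (FF f d) ≠ 0 := by
    intro h
    exact FF_ne_zero h2 (Nat.pos_of_mem_divisors hd)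
      ((IsFractionRing.injective ℚ[X] (RatFunc ℚ)) (by rw [h, _root_.map_zero]))
  have e : (f.comp)^[d] X - X = FF f d := rfl
  rw [e]
  rcases moebius_eq_or (n / d) with h3 | h3 | h3
  · rw [h3]; simp
  · rw [h3]; simp
  · rw [h3]; simp [h0]

end Pool.Agent.K1H61.DY
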