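import Pool.Agent.K1H73.DY.Stm

set_option autoImplicit false

/-!
# From an automorphism of a large field to a Galois group (piece DY-H)
-/

namespace Pool.Agent.K1H61.DY

open Polynomial Pool.Agent.K1H73.DY

lemma core (Φ : ℚ[X]) (K : Type) [Field K] [Algebra ℚ K] [IsAlgClosed K]
    (σ : K ≃+* K) (hσ : ∀ x : K, aeval x Φ = 0 → σ x ≠ x)
    (M : Type) [Field M] [CharZero M] [Φ.IsSplittingField ℚ M] :
    ∃ (_ : NumberField M) (_ : IsGalois ℚ M) (g : M ≃ₐ[ℚ] M),
      (Φ.map (algebraMap ℚ M)).Splits ∧ ∀ x : M, aeval x Φ = 0 → g x ≠ x := by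
  have hnorm : Normal ℚ M := Normal.of_isSplittingField Φ
  have hfin : FiniteDimensional ℚ M := Polynomial.IsSplittingField.finiteDimensional M Φ
  have hnf : NumberField M := ⟨⟩
  have hgal : IsGalois ℚ M := ⟨⟩
  let ι : M →ₐ[ℚ] K := IsAlgClosed.lift
  letI : Algebra M K := ι.toRingHom.toAlgebra
  have hst : IsScalarTower ℚ M K := IsScalarTower.of_algebraMap_eq' (by
    ext x; simp)
  let s : K ≃ₐ[ℚ] K := AlgEquiv.ofRingEquiv (f := σ) (by
    intro r
    simp)
  refine ⟨hnf, hgal, s.restrictNormal M, Polynomial.IsSplittingField.splits M Φ, ?_⟩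
  intro x hx hg
  apply hσ (ι x)
  · rw [aeval_algHom_apply, hx, map_zero]
  · have := s.restrictNormal_commutes M x
    rw [hg] at this
    exact this.symm

theorem t_G1 : S_G1 := by
  intro Φ _ K _ _ _ σ hσ
  have hc : CharZero Φ.SplittingField := algebraRat.charZero _
  have key : ∀ (A : Algebra ℚ Φ.SplittingField), @IsSplittingField ℚ Φ.SplittingField _ _ A Φ →
      @IsSplittingField ℚ Φ.SplittingField _ _ (DivisionRing.toRatAlgebra) Φ := fun A hA => by
    have e : A = DivisionRing.toRatAlgebra := Subsingleton.elim _ _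
    rw [← e]; exact hA
  have hs := key _ (IsSplittingField.splittingField Φ)
  obtain ⟨h1, h2, g, h3, h4⟩ := core Φ K σ hσ Φ.SplittingField
  exact ⟨Φ.SplittingField, inferInstance, h1, h2, g, h3, h4⟩

end Pool.Agent.K1H61.DY
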